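import Pool.Agent.H20.LIM.Targets
import Pool.Agent.H23.GLM.Instance

/-!
# Growth near the critical line and to the right of it
-/

set_option autoImplicit false

open Complex MeasureTheory Set Filter Topology Metric

namespace Pool.Agent.H51.LIM

open Pool.Agent.H23.GLM Pool.Agent.H23.GLH Pool.Agent.H23.DZ Pool.Agent.H20.LIM

lemma zeta_le {s : ℂ} (hs : 0 < s.re) (him : 2 ≤ |s.im|) :
    s ≠ 1 ∧ ‖riemannZeta s‖ ≤ 3 * ‖Fz s‖ := by
  have hs1 : s ≠ 1 := by
    rintro rfl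
    simp at him
    linarith
  refine ⟨hs1, ?_⟩
  have h1 : 2 ≤ ‖s - 1‖ := by
    refine him.trans ?_
    have := Complex.abs_im_le_norm (s - 1)
    simpa using this
  have h2 : ‖s + 1‖ ≤ ‖s - 1‖ + 2 := by
    calc ‖s + 1‖ = ‖(s - 1) + 2‖ := by ring_nf
      _ ≤ ‖s - 1‖ + ‖(2 : ℂ)‖ := norm_add_le _ _
      _ = ‖s - 1‖ + 2 := by norm_num
  have h3 : 0 < ‖s + 1‖ := norm_pos_iff.mpr (add_one_ne hs)
  rw [Fz_eq hs hs1, norm_mul, norm_div]
  have h4 : 1 ≤ 3 * (‖s - 1‖ / ‖s + 1‖) := by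
    rw [← mul_div_assoc, le_div_iff₀ h3]
    linarith
  calc ‖riemannZeta s‖ = ‖riemannZeta s‖ * 1 := (mul_one _).symm
    _ ≤ ‖riemannZeta s‖ * (3 * (‖s - 1‖ / ‖s + 1‖)) :=
        mul_le_mul_of_nonneg_left h4 (norm_nonneg _)
    _ = _ := by ring

theorem pf_gro : T_GRO := by
  intro m S hS R hR
  obtain ⟨A0, hA0⟩ := exists_adm hS
  have hA1 : 1 ≤ A0 := hA0.one_le_A
  have hR1 : (1 : ℝ) ≤ (1 + R) ^ m := one_le_pow₀ (by linarith)
  have hAR : 1 ≤ A0 * (1 + R) ^ m := one_le_mul_of_one_le_of_one_le hA1 hR1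
  refine ⟨3 * (A0 * (1 + R) ^ m), R + 3, by linarith, ?_⟩
  intro π hπ t ht z hz
  have hC : 1 ≤ π.C := π.one_le_C
  have hre : ((1 : ℂ) / 2 + t * I + z).re = 1 / 2 + z.re := by simp
  have him : ((1 : ℂ) / 2 + t * I + z).im = t + z.im := by simp
  have hzi : |z.im| ≤ R := (Complex.abs_im_le_norm z).trans hz
  have hgrow : -(1 / 4) ≤ z.re → ‖π.F (1 / 2 + t * I + z)‖ ≤ A0 * (1 + R) ^ m * π.X t := by
    intro hzr
    have h1 := hA0.grow ⟨π, hπ⟩ (1 / 2 + t * I + z) (by rw [hre]; linarith)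
    rw [pow_one] at h1
    refine h1.trans ?_
    have h2 : 1 + |((1 : ℂ) / 2 + t * I + z).im| ≤ (1 + R) * (1 + |t|) := by
      rw [him]
      have h3 := abs_add_le t z.im
      nlinarith [abs_nonneg t]
    have h3 : (1 + |((1 : ℂ) / 2 + t * I + z).im|) ^ m ≤ ((1 + R) * (1 + |t|)) ^ m :=
      pow_le_pow_left₀ (by positivity) h2 m
    have h4 : π.C * (1 + |((1 : ℂ) / 2 + t * I + z).im|) ^ m ≤ (1 + R) ^ m * π.X t := by
      calc π.C * (1 + |((1 : ℂ) / 2 + t * I + z).im|) ^ m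
          ≤ π.C * ((1 + R) * (1 + |t|)) ^ m := mul_le_mul_of_nonneg_left h3 (by linarith)
        _ = (1 + R) ^ m * π.X t := by
            rw [LData.X, mul_pow]
            ring
    calc A0 * (π.C * (1 + |((1 : ℂ) / 2 + t * I + z).im|) ^ m)
        ≤ A0 * ((1 + R) ^ m * π.X t) := mul_le_mul_of_nonneg_left h4 (by linarith)
      _ = _ := by ring
  have hX : 0 ≤ π.X t := by
    rw [LData.X]
    have := abs_nonneg t
    positivity
  have hARX : 0 ≤ A0 * (1 + R) ^ m * π.X t := mul_nonneg (by linarith) hX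
  by_cases h : Differentiable ℂ π.L
  · refine ⟨h _, fun hzr => ?_⟩
    have h1 := hgrow hzr
    rw [LData.F_pos h] at h1
    linarith
  · obtain ⟨hm, hC1, hL⟩ := LData.zeta_of h
    have hXt : π.X t = 1 + |t| := by
      rw [LData.X, hC1, one_mul, hm, pow_one]
    have ht2 : R + 2 ≤ |t| := by
      rw [hXt] at ht
      linarith
    have him2 : 2 ≤ |((1 : ℂ) / 2 + t * I + z).im| := by
      rw [him]
      have h3 : |t| ≤ |t + z.im| + |z.im| := by
        have := abs_sub_abs_le_abs_sub (t + z.im) z.im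
        calc |t| = |(t + z.im) - z.im| := by ring_nf
          _ ≤ |t + z.im| + |z.im| := abs_sub _ _
      linarith
    have hs1 : ((1 : ℂ) / 2 + t * I + z) ≠ 1 := by
      intro h3
      rw [h3] at him2
      simp at him2
      linarith
    rw [hL]
    refine ⟨differentiableAt_riemannZeta hs1, fun hzr => ?_⟩
    have h1 := hgrow hzr
    rw [LData.F_neg h] at h1
    have h2 := (zeta_le (s := 1 / 2 + t * I + z) (by rw [hre]; linarith) him2).2
    linarith

end Pool.Agent.H51.LIM
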