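import Pool.Agent.H20.LIM.Targets2

/-!
# The zeros are distributed like the Riesz measure of the limit
-/

set_option autoImplicit false

open Complex MeasureTheory Set Filter Topology Metric Laplacian

namespace Pool.Agent.H51.LIM

open Pool.Agent.H23.GLM Pool.Agent.H23.DZ Pool.Agent.H20.LIM

lemma continuous_lap {φ : ℂ → ℝ} (hφ : ContDiff ℝ 2 φ) : Continuous (Δ φ) := by
  rw [InnerProductSpace.laplacian_eq_iteratedFDeriv_complexPlane]
  have h : Continuous (iteratedFDeriv ℝ 2 φ) := hφ.continuous_iteratedFDeriv le_rfl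
  fun_prop

lemma lap_zero {φ : ℂ → ℝ} {R : ℝ} (h : tsupport φ ⊆ ball 0 R) {z : ℂ} (hz : R ≤ ‖z‖) :
    (Δ φ) z = 0 := by
  have h1 : z ∉ tsupport φ := fun h2 => by
    have h3 := h h2
    rw [mem_ball_zero_iff] at h3
    linarith
  have h2 : φ =ᶠ[𝓝 z] fun _ => (0 : ℝ) := notMem_tsupport_iff_eventuallyEq.1 h1
  have h3 := (InnerProductSpace.laplacian_congr_nhds h2).self_of_nhds
  rw [h3]
  simp

theorem pf_zer (hRIE : T_RIE) (hLAN : T_LAN) : T_ZER := by
  intro m S hM hF π t u hπ hX hU φ hφ hcs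
  obtain ⟨hmeas, hlan⟩ := hLAN m S hM hF π t hπ hX
  obtain ⟨hum, hconv⟩ := hU
  obtain ⟨R, hR0, hR⟩ : ∃ R : ℝ, 0 < R ∧ tsupport φ ⊆ ball 0 R := by
    obtain ⟨R, hR⟩ := hcs.isCompact.isBounded.subset_ball 0
    exact ⟨max R 1, lt_max_of_lt_right one_pos, hR.trans (ball_subset_ball (le_max_left _ _))⟩
  have hcont := continuous_lap hφ
  have hcsL : HasCompactSupport (Δ φ) := by
    refine HasCompactSupport.intro (isCompact_closedBall (0 : ℂ) R) fun z hz => ?_
    rw [mem_closedBall_zero_iff, not_le] at hz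
    exact lap_zero hR hz.le
  obtain ⟨C, hC⟩ := hcont.bounded_above_of_compact_support hcsL
  have hC0 : 0 ≤ C := (norm_nonneg _).trans (hC 0)
  have hlog : Tendsto (fun k => Real.log ((π k).X (t k))) atTop atTop :=
    Real.tendsto_log_atTop.comp hX
  have hev : ∀ᶠ k in atTop, Integrable (fun z => U (π k) (t k) z * (Δ φ) z) ∧
      (∑ᶠ w : ℂ, (analyticOrderNatAt (π k).L (1 / 2 + t k * I + w) : ℝ) * φ w) /
        Real.log ((π k).X (t k)) = (2 * Real.pi)⁻¹ * ∫ z, U (π k) (t k) z * (Δ φ) z := by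
    filter_upwards [hlan R, hlog.eventually_gt_atTop 0] with k hk hk0
    obtain ⟨han, hne⟩ := hk
    have hex : ∃ z ∈ ball (0 : ℂ) R, (π k).L (1 / 2 + t k * I + z) ≠ 0 := by
      by_contra h
      push Not at h
      have h1 : volume (ball (0 : ℂ) R) = 0 := by
        refine measure_mono_null (fun z hz => ?_) (ae_iff.1 hne)
        intro h2
        exact h2 (le_of_lt (mem_ball_zero_iff.1 hz)) (h z hz)
      exact (measure_ball_pos volume (0 : ℂ) hR0).ne' h1
    obtain ⟨hint, hval⟩ := hRIE (fun z => (π k).L (1 / 2 + t k * I + z)) R φ hR0 han hex hφ hR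
    have hfun : (fun z => U (π k) (t k) z * (Δ φ) z) = fun z =>
        (Real.log ‖(π k).L (1 / 2 + t k * I + z)‖ * (Δ φ) z) / Real.log ((π k).X (t k)) := by
      funext z
      unfold U
      ring
    have hord : ∀ w : ℂ, analyticOrderNatAt (π k).L (1 / 2 + t k * I + w) =
        analyticOrderNatAt (fun z => (π k).L (1 / 2 + t k * I + z)) w := by
      intro w
      have h1 : AnalyticAt ℂ (fun z : ℂ => 1 / 2 + t k * I + z) w := by fun_prop
      have h2 : deriv (fun z : ℂ => 1 / 2 + t k * I + z) w ≠ 0 := by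
        rw [deriv_const_add, deriv_id'']
        exact one_ne_zero
      have h3 := analyticOrderAt_comp_of_deriv_ne_zero (f := (π k).L) h1 h2
      unfold analyticOrderNatAt
      rw [← h3]
      rfl
    rw [hfun]
    refine ⟨hint.div_const _, ?_⟩
    rw [integral_div, hval]
    have hpi : (2 * Real.pi) ≠ 0 := by positivity
    simp only [hord]
    field_simp
  have hsq : Tendsto (fun k => ∫⁻ z, ‖U (π k) (t k) z * (Δ φ) z - u z * (Δ φ) z‖ₑ) atTop (𝓝 0) := by
    have h1 := ENNReal.Tendsto.const_mul (hconv R) (Or.inr (ENNReal.ofReal_ne_top (r := C)))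
    rw [mul_zero] at h1
    refine tendsto_of_tendsto_of_tendsto_of_le_of_le tendsto_const_nhds h1
      (fun k => bot_le) fun k => ?_
    show _ ≤ ENNReal.ofReal C * _
    rw [← lintegral_const_mul' _ _ ENNReal.ofReal_ne_top,
      ← lintegral_indicator measurableSet_closedBall]
    refine lintegral_mono fun z => ?_
    by_cases hz : z ∈ closedBall (0 : ℂ) R
    · rw [indicator_of_mem hz, ← sub_mul, enorm_mul, mul_comm]
      gcongr
      rw [← ofReal_norm]
      exact ENNReal.ofReal_le_ofReal (hC z)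
    · rw [mem_closedBall_zero_iff, not_le] at hz
      rw [lap_zero hR hz.le]
      simp
  have hui : Integrable (fun z => u z * (Δ φ) z) := by
    obtain ⟨k, hk1, hk2⟩ := (hev.and (hsq.eventually_lt_const (zero_lt_one))).exists
    have h1 : AEStronglyMeasurable (fun z => u z * (Δ φ) z) volume :=
      hum.mul hcont.aestronglyMeasurable
    have h2 : Integrable (fun z => U (π k) (t k) z * (Δ φ) z - u z * (Δ φ) z) :=
      ⟨hk1.1.aestronglyMeasurable.sub h1, hk2.trans ENNReal.one_lt_top⟩
    have h3 := hk1.1.sub h2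
    refine h3.congr (Eventually.of_forall fun z => ?_)
    simp
  have hlim := tendsto_integral_of_L1 _ hui.aestronglyMeasurable (hev.mono fun k hk => hk.1) hsq
  refine (hlim.const_mul ((2 * Real.pi)⁻¹)).congr' ?_
  filter_upwards [hev] with k hk
  exact hk.2.symm

end Pool.Agent.H51.LIM
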